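import Pool.Agent.H316R3.NE.Defs3

/-! (GMa) regularisation of a quasi-norm (helper303) -/

set_option autoImplicit false

namespace Pool.Agent.H316R3.NE

open Polynomial Filter Topology

/-- the upper roots -/
noncomputable def gmaB (c : ℂ[X] → ℝ) (D : ℝ) (p : ℂ[X]) (m : ℕ) : ℝ :=
  (D * c (p ^ (2 ^ m))) ^ ((1 / 2 : ℝ) ^ m)

/-- the lower roots -/
noncomputable def gmaD (c : ℂ[X] → ℝ) (D : ℝ) (p : ℂ[X]) (m : ℕ) : ℝ :=
  (c (p ^ (2 ^ m)) / D) ^ ((1 / 2 : ℝ) ^ m)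

theorem gma_sq (x : ℝ) (hx : 0 ≤ x) (m : ℕ) :
    (x ^ 2) ^ ((1 / 2 : ℝ) ^ (m + 1)) = x ^ ((1 / 2 : ℝ) ^ m) := by
  rw [← Real.rpow_natCast, ← Real.rpow_mul hx]
  congr 1
  rw [pow_succ]
  push_cast
  ring

theorem gma_step (c : ℂ[X] → ℝ) (D : ℝ) (h : QNorm c D) (p : ℂ[X]) (m : ℕ) :
    c (p ^ (2 ^ (m + 1))) ≤ D * (c (p ^ (2 ^ m))) ^ 2 ∧
      (c (p ^ (2 ^ m))) ^ 2 ≤ D * c (p ^ (2 ^ (m + 1))) := by
  have e : p ^ (2 ^ (m + 1)) = p ^ (2 ^ m) * p ^ (2 ^ m) := by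
    rw [← pow_add]; congr 1; ring
  rw [e, sq]
  exact ⟨h.mul_le _ _, h.le_mul _ _⟩

theorem gma_anti (c : ℂ[X] → ℝ) (D : ℝ) (h : QNorm c D) (p : ℂ[X]) : Antitone (gmaB c D p) := by
  have hD : 0 < D := lt_of_lt_of_le one_pos h.one_le
  refine antitone_nat_of_succ_le fun m => ?_
  unfold gmaB
  rw [← gma_sq (D * c (p ^ (2 ^ m))) (mul_nonneg hD.le (h.nonneg _)) m]
  refine Real.rpow_le_rpow (mul_nonneg hD.le (h.nonneg _)) ?_ (by positivity)
  have h1 := (gma_step c D h p m).1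
  nlinarith

theorem gma_mono (c : ℂ[X] → ℝ) (D : ℝ) (h : QNorm c D) (p : ℂ[X]) : Monotone (gmaD c D p) := by
  have hD : 0 < D := lt_of_lt_of_le one_pos h.one_le
  refine monotone_nat_of_le_succ fun m => ?_
  unfold gmaD
  rw [← gma_sq (c (p ^ (2 ^ m)) / D) (div_nonneg (h.nonneg _) hD.le) m]
  refine Real.rpow_le_rpow (by positivity) ?_ (by positivity)
  have h1 := (gma_step c D h p m).2
  rw [div_pow, div_le_div_iff₀ (by positivity) hD]
  nlinarith

theorem gma_rel (c : ℂ[X] → ℝ) (D : ℝ) (h : QNorm c D) (p : ℂ[X]) (m : ℕ) :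
    gmaD c D p m = gmaB c D p m / (D ^ 2) ^ ((1 / 2 : ℝ) ^ m) := by
  have hD : 0 < D := lt_of_lt_of_le one_pos h.one_le
  unfold gmaB gmaD
  rw [← Real.div_rpow (mul_nonneg hD.le (h.nonneg _)) (by positivity)]
  congr 1
  field_simp

theorem gma_e : Tendsto (fun m : ℕ => (1 / 2 : ℝ) ^ m) atTop (𝓝 0) :=
  tendsto_pow_atTop_nhds_zero_of_lt_one (by norm_num) (by norm_num)

theorem gma_one (x : ℝ) (hx : 0 < x) : Tendsto (fun m : ℕ => x ^ ((1 / 2 : ℝ) ^ m)) atTop (𝓝 1) := by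
  have h := (tendsto_const_nhds (x := x) (f := atTop)).rpow gma_e (Or.inl hx.ne')
  rwa [Real.rpow_zero] at h

theorem t_GMa : S_GMa := by
  intro c D h
  have hD : 0 < D := lt_of_lt_of_le one_pos h.one_le
  have hb0 : ∀ p m, 0 ≤ gmaB c D p m := fun p m =>
    Real.rpow_nonneg (mul_nonneg hD.le (h.nonneg _)) _
  have hd0 : ∀ p m, 0 ≤ gmaD c D p m := fun p m =>
    Real.rpow_nonneg (div_nonneg (h.nonneg _) hD.le) _
  have hex : ∀ p, ∃ r, Tendsto (gmaB c D p) atTop (𝓝 r) := fun p =>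
    ⟨_, tendsto_atTop_ciInf (gma_anti c D h p) ⟨0, by rintro _ ⟨m, rfl⟩; exact hb0 p m⟩⟩
  choose R hR using hex
  have hRd : ∀ p, Tendsto (gmaD c D p) atTop (𝓝 (R p)) := by
    intro p
    have h1 := (hR p).div (gma_one (D ^ 2) (by positivity)) one_ne_zero
    rw [div_one] at h1
    refine h1.congr fun m => ?_
    exact (gma_rel c D h p m).symm
  have hR0 : ∀ p, 0 ≤ R p := fun p => ge_of_tendsto' (hR p) (hb0 p)
  have hup : ∀ p, R p ≤ D * c p := by
    intro p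
    have h1 := (gma_anti c D h p).le_of_tendsto (hR p) 0
    simpa [gmaB] using h1
  have hlo : ∀ p, c p / D ≤ R p := by
    intro p
    have h1 := (gma_mono c D h p).ge_of_tendsto (hRd p) 0
    simpa [gmaD] using h1
  have hcR : ∀ p, c p ≤ D * R p := by
    intro p
    have h1 := hlo p
    rw [div_le_iff₀ hD] at h1
    linarith
  refine ⟨R, D ^ 3, hR0, ?_, ?_, ?_, hcR⟩
  · intro z
    have h1 : ∀ m, gmaB c D (C z) m = D ^ ((1 / 2 : ℝ) ^ m) * ‖z‖ := by
      intro m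
      unfold gmaB
      rw [← C_pow, h.scal, norm_pow, Real.mul_rpow hD.le (by positivity)]
      congr 1
      rw [← Real.rpow_natCast, ← Real.rpow_mul (norm_nonneg z)]
      have : ((2 ^ m : ℕ) : ℝ) * (1 / 2 : ℝ) ^ m = 1 := by
        push_cast
        rw [← mul_pow]
        norm_num
      rw [this, Real.rpow_one]
    have h2 := (gma_one D hD).mul_const ‖z‖
    rw [one_mul] at h2
    have h3 : Tendsto (gmaB c D (C z)) atTop (𝓝 ‖z‖) := h2.congr fun m => (h1 m).symm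
    exact tendsto_nhds_unique (hR _) h3
  · intro p q
    apply le_antisymm
    · refine le_of_tendsto_of_tendsto' (hR (p * q)) ((hR p).mul (hR q)) fun m => ?_
      unfold gmaB
      rw [← Real.mul_rpow (mul_nonneg hD.le (h.nonneg _)) (mul_nonneg hD.le (h.nonneg _)), mul_pow]
      refine Real.rpow_le_rpow (mul_nonneg hD.le (h.nonneg _)) ?_ (by positivity)
      have h1 := h.mul_le (p ^ (2 ^ m)) (q ^ (2 ^ m))
      have h2 := mul_le_mul_of_nonneg_left h1 hD.le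
      linarith
    · refine le_of_tendsto_of_tendsto' ((hRd p).mul (hRd q)) (hRd (p * q)) fun m => ?_
      unfold gmaD
      rw [← Real.mul_rpow (div_nonneg (h.nonneg _) hD.le) (div_nonneg (h.nonneg _) hD.le), mul_pow]
      refine Real.rpow_le_rpow (mul_nonneg (div_nonneg (h.nonneg _) hD.le)
        (div_nonneg (h.nonneg _) hD.le)) ?_ (by positivity)
      have h1 := h.le_mul (p ^ (2 ^ m)) (q ^ (2 ^ m))
      rw [div_mul_div_comm, div_le_div_iff₀ (by positivity) hD]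
      nlinarith
  · intro p q
    have h1 := hup (p + q)
    have h2 := mul_le_mul_of_nonneg_left (h.add_le p q) hD.le
    have h3 : D * (D * (c p + c q)) ≤ D * (D * (D * R p + D * R q)) := by
      refine mul_le_mul_of_nonneg_left (mul_le_mul_of_nonneg_left ?_ hD.le) hD.le
      exact add_le_add (hcR p) (hcR q)
    calc R (p + q) ≤ D * (D * (D * R p + D * R q)) := h1.trans (h2.trans h3)
      _ = D ^ 3 * (R p + R q) := by ring

end Pool.Agent.H316R3.NE
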