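import Pool.Agent.H316R3.NE.Defs2

/-!
# Range projections in tracial ultrapowers (task RPQ)
-/

set_option autoImplicit false

open scoped BoundedContinuousFunction Topology
open Filter

namespace Pool.Agent.H316R3.NE

open Pool.Agent.Helper278

universe u

namespace RPQ

section abs

variable {A : Type u} [Ring A] [StarRing A] [Algebra ℂ A] [StarModule ℂ A] {τ : A →ₗ[ℂ] ℂ}

theorem n2_eq_zero (h : TrAlg τ) {x : A} (hx : n2 τ x ≤ 0) : x = 0 := by
  have h0 : n2 τ x = 0 := le_antisymm hx (n2_nonneg _ _)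
  apply h.faithful
  have h1 : (τ (star x * x)).re = 0 := by rw [← h.n2_sq, h0]; norm_num
  exact Complex.ext (by simpa using h1) (by simpa using h.im_zero x)

theorem n2_one (h : TrAlg τ) : n2 τ (1 : A) = 1 := by
  unfold n2
  rw [star_one, one_mul, h.one]
  simp

theorem re_mul_comm (h : TrAlg τ) (x y : A) : (τ (x * y)).re = (τ (y * x)).re := by rw [h.comm]

/-- the two identities for a pair of projections -/
theorem two (h : TrAlg τ) {p q : A} (hp : Pj p) (hq : Pj q) :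
    n2 τ ((1 - q) * p) ^ 2 = (τ p).re - (τ (q * p)).re ∧
      n2 τ (p - q) ^ 2 = (τ q).re - (τ p).re + 2 * n2 τ ((1 - q) * p) ^ 2 := by
  obtain ⟨p1, p2⟩ := hp
  obtain ⟨q1, q2⟩ := hq
  have e1 : n2 τ ((1 - q) * p) ^ 2 = (τ p).re - (τ (q * p)).re := by
    rw [h.n2_sq]
    have : star ((1 - q) * p) * ((1 - q) * p) = p * p - p * (q * p) := by
      rw [star_mul, star_sub, star_one, p1, q1]
      have : p * (1 - q) * ((1 - q) * p) = p * p - p * (q * p) - p * (q * p) + p * (q * q) * p := by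
        noncomm_ring
      rw [this, q2]
      noncomm_ring
    rw [this, map_sub, Complex.sub_re, p2, h.comm p (q * p), mul_assoc, p2]
  refine ⟨e1, ?_⟩
  rw [e1, h.n2_sq]
  have : star (p - q) * (p - q) = p * p + q * q - p * q - q * p := by
    rw [star_sub, p1, q1]; noncomm_ring
  rw [this, p2, q2, map_sub, map_sub, map_add, h.comm p q]
  simp only [Complex.sub_re, Complex.add_re]
  ring

theorem re_le_one (h : TrAlg τ) {p : A} (hp : Pj p) : (τ p).re ≤ 1 := by
  have h1 := h.re_nonneg (1 - p)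
  rw [star_sub, star_one, hp.1] at h1
  have : (1 - p) * (1 - p) = 1 - p := by
    have : (1 - p) * (1 - p) = 1 - p - p + p * p := by noncomm_ring
    rw [this, hp.2]; noncomm_ring
  rw [this, map_sub, h.one] at h1
  simp at h1
  linarith

theorem re_nonneg' (h : TrAlg τ) {p : A} (hp : Pj p) : 0 ≤ (τ p).re := by
  have h1 := h.re_nonneg p
  rwa [hp.1, hp.2] at h1

/-- a sequence of projections with `‖(1 - R l) R k‖ ≤ 2^(-k)` is Cauchy -/
theorem cauchy (h : TrAlg τ) (R : ℕ → A) (hR : ∀ k, Pj (R k))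
    (h1 : ∀ k l, k < l → n2 τ ((1 - R l) * R k) ≤ (1 / 2) ^ k) (ε : ℝ) (hε : 0 < ε) :
    ∃ K : ℕ, ∀ k l, K ≤ k → K ≤ l → n2 τ (R k - R l) ≤ ε := by
  set v : ℕ → ℝ := fun k => (τ (R k)).re - 4 * (1 / 4) ^ k with hv
  have h2 : ∀ k l, k < l → n2 τ ((1 - R l) * R k) ^ 2 ≤ (1 / 4) ^ k := by
    intro k l hkl
    have := pow_le_pow_left₀ (n2_nonneg _ _) (h1 k l hkl) 2
    rw [← pow_mul, mul_comm, pow_mul] at this
    norm_num at this ⊢
    exact this
  have h3 : ∀ k l, k < l → n2 τ (R k - R l) ^ 2 ≤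
      (τ (R l)).re - (τ (R k)).re + 2 * (1 / 4) ^ k := by
    intro k l hkl
    rw [(two h (hR k) (hR l)).2]
    have := h2 k l hkl
    linarith
  have hmono : Monotone v := by
    refine monotone_nat_of_le_succ fun k => ?_
    have h4 := h3 k (k + 1) (Nat.lt_succ_self k)
    have h5 := sq_nonneg (n2 τ (R k - R (k + 1)))
    have h6 : 0 < (1 / 4 : ℝ) ^ k := by positivity
    simp only [hv, pow_succ]
    linarith
  have hbdd : BddAbove (Set.range v) := by
    refine ⟨1, ?_⟩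
    rintro _ ⟨k, rfl⟩
    have h4 := re_le_one h (hR k)
    have h6 : 0 < (1 / 4 : ℝ) ^ k := by positivity
    simp only [hv]
    linarith
  have hc : CauchySeq v := (tendsto_atTop_ciSup hmono hbdd).cauchySeq
  obtain ⟨K1, hK1⟩ := Metric.cauchySeq_iff.1 hc (ε ^ 2 / 2) (by positivity)
  have hpow : Tendsto (fun k : ℕ => 2 * (1 / 4 : ℝ) ^ k) atTop (𝓝 (2 * 0)) :=
    (tendsto_pow_atTop_nhds_zero_of_lt_one (by norm_num) (by norm_num)).const_mul 2
  rw [mul_zero] at hpow
  obtain ⟨K2, hK2⟩ := eventually_atTop.1 (hpow.eventually (gt_mem_nhds (by positivity :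
    (0 : ℝ) < ε ^ 2 / 2)))
  have key : ∀ k l, max K1 K2 ≤ k → k < l → n2 τ (R k - R l) ≤ ε := by
    intro k l hk hkl
    have h4 := h3 k l hkl
    have h5 := hK1 l (by omega) k (by omega)
    rw [Real.dist_eq] at h5
    have h6 := hK2 k (by omega)
    have h7 : (1 / 4 : ℝ) ^ l ≤ (1 / 4) ^ k :=
      pow_le_pow_of_le_one (by norm_num) (by norm_num) hkl.le
    have h8 : (τ (R l)).re - (τ (R k)).re ≤ |v l - v k| := by
      refine le_trans ?_ (le_abs_self _)
      simp only [hv]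
      linarith
    have h9 : n2 τ (R k - R l) ^ 2 ≤ ε ^ 2 := by linarith
    exact (pow_le_pow_iff_left₀ (n2_nonneg _ _) hε.le two_ne_zero).1 h9
  refine ⟨max K1 K2, fun k l hk hl => ?_⟩
  rcases lt_trichotomy k l with hkl | hkl | hkl
  · exact key k l hk hkl
  · rw [hkl, sub_self, h.n2_zero]; exact hε.le
  · rw [h.n2_sub_comm]
    exact key l k hl hkl

end abs

section ultra

variable {H : Type u} [NormedAddCommGroup H] [InnerProductSpace ℂ H] [CompleteSpace H]
variable {N : VonNeumannAlgebra H}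
variable {Q : Type u} [Ring Q] [StarRing Q] [Algebra ℂ Q] [StarModule ℂ Q]
variable {T : TracialState N} {U : Ultrafilter ℕ} {π : (ℕ →ᵇ Elt N) →⋆ₐ[ℂ] Q} {σ : Q → ℂ}

theorem n2_lim (hπ : IsTracialUltrapower T.τ U π σ) (z : ℕ →ᵇ Elt N) :
    Tendsto (fun n => n2 T.τ (z n)) U (𝓝 (n2 (sigmaL hπ) (π z))) := by
  unfold n2
  have h1 := hπ.trace (star z * z)
  rw [map_mul, map_star] at h1
  exact (Real.continuous_sqrt.comp Complex.continuous_re).continuousAt.tendsto.comp h1

theorem mul_bd (hπ : IsTracialUltrapower T.τ U π σ) (a : Q) :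
    ∃ C : ℝ, 0 ≤ C ∧ ∀ z, n2 (sigmaL hπ) (z * a) ≤ C * n2 (sigmaL hπ) z ∧
      n2 (sigmaL hπ) (a * z) ≤ C * n2 (sigmaL hπ) z := by
  obtain ⟨a, rfl⟩ := hπ.surj a
  refine ⟨‖a‖, norm_nonneg _, fun z => ?_⟩
  obtain ⟨z, rfl⟩ := hπ.surj z
  have hn : ∀ n, ‖((a n : Elt N) : H →L[ℂ] H)‖ ≤ ‖a‖ := fun n => a.norm_coe_le_norm n
  rw [← map_mul, ← map_mul]
  constructor
  · refine le_of_tendsto_of_tendsto' (n2_lim hπ (z * a)) ((n2_lim hπ z).const_mul _) fun n => ?_
    refine (n2_mul_le' T (z n) (a n)).trans ?_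
    exact mul_le_mul_of_nonneg_right (hn n) (n2_nonneg _ _)
  · refine le_of_tendsto_of_tendsto' (n2_lim hπ (a * z)) ((n2_lim hπ z).const_mul _) fun n => ?_
    refine (n2_mul_le T (a n) (z n)).trans ?_
    exact mul_le_mul_of_nonneg_right (hn n) (n2_nonneg _ _)

theorem pj_mkP (π : (ℕ →ᵇ Elt N) →⋆ₐ[ℂ] Q) (r : ℕ → {p : Elt N // Pj p}) :
    Pj (π (mkP r)) := by
  constructor
  · rw [← map_star]
    congr 1
    ext n : 1
    exact (r n).2.1
  · rw [← map_mul]
    congr 1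
    ext n : 1
    exact (r n).2.2

end ultra

end RPQ

open RPQ

theorem t_RPQ (hS : S_SPECQ.{u}) (hL : S_LIMQ.{u}) : S_RPQ.{u} := by
  intro H _ _ _ N T U hU Q _ _ _ _ π σ hπ hlift x E hE hxE
  have h := sigma_trAlg hπ
  set δ : ℕ → ℝ := fun k => (1 / 2) ^ (k ^ 2) with hδ
  have hδ0 : ∀ k, 0 < δ k := fun k => by simp only [hδ]; positivity
  choose r hr1 hr2 hr3 using fun k => hS H N T U Q π σ hπ hlift x E hE hxE (δ k) (hδ0 k)
  set R : ℕ → Q := fun k => π (mkP (r k)) with hR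
  have hRP : ∀ k, Pj (R k) := fun k => pj_mkP π (r k)
  have h1 : ∀ k l, k < l → n2 (sigmaL hπ) ((1 - R l) * R k) ≤ (1 / 2) ^ k := by
    intro k l hkl
    have h2 := hr3 k (1 - R l)
    have h3 : n2 (sigmaL hπ) ((1 - R l) * x) ≤ δ l := by
      rw [sub_mul, one_mul]
      exact hr2 l
    have h4 : (δ k)⁻¹ * n2 (sigmaL hπ) ((1 - R l) * x) ≤ (δ k)⁻¹ * δ l :=
      mul_le_mul_of_nonneg_left h3 (inv_nonneg.2 (hδ0 k).le)
    refine (h2.trans h4).trans ?_
    rw [inv_mul_le_iff₀ (hδ0 k)]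
    simp only [hδ]
    rw [← pow_add]
    refine pow_le_pow_of_le_one (by norm_num) (by norm_num) ?_
    nlinarith
  obtain ⟨P, hP, hlim⟩ := hL H N T U hU Q π σ hπ r (cauchy h R hRP h1)
  have hlim' : Tendsto (fun k => n2 (sigmaL hπ) (R k - P)) atTop (𝓝 0) := hlim
  have hδl : Tendsto δ atTop (𝓝 0) := by
    refine squeeze_zero (fun k => (hδ0 k).le) (g := fun k : ℕ => (1 / 2 : ℝ) ^ k) (fun k => ?_)
      (tendsto_pow_atTop_nhds_zero_of_lt_one (by norm_num) (by norm_num))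
    exact pow_le_pow_of_le_one (by norm_num) (by norm_num) (by nlinarith)
  refine ⟨P, hP, ?_, ?_, ?_⟩
  · obtain ⟨C, hC, hCx⟩ := mul_bd hπ x
    have hb : Tendsto (fun k => δ k + C * n2 (sigmaL hπ) (R k - P)) atTop (𝓝 (0 + C * 0)) :=
      hδl.add (hlim'.const_mul C)
    rw [mul_zero, add_zero] at hb
    have h2 : n2 (sigmaL hπ) (x - P * x) ≤ 0 := by
      refine ge_of_tendsto' hb fun k => ?_
      have e : x - P * x = (x - R k * x) + (R k - P) * x := by noncomm_ring
      rw [e]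
      refine (h.n2_add_le _ _).trans ?_
      exact add_le_add (hr2 k) (hCx _).1
    have := n2_eq_zero h h2
    rw [sub_eq_zero] at this
    exact this.symm
  · intro y hy
    obtain ⟨C, hC, hCy⟩ := mul_bd hπ y
    have hb : Tendsto (fun k => C * n2 (sigmaL hπ) (R k - P)) atTop (𝓝 (C * 0)) :=
      hlim'.const_mul C
    rw [mul_zero] at hb
    refine n2_eq_zero h (ge_of_tendsto' hb fun k => ?_)
    have h2 : y * R k = 0 := by
      refine n2_eq_zero h ((hr3 k y).trans ?_)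
      rw [hy, h.n2_zero, mul_zero]
    have e : y * P = -(y * (R k - P)) := by rw [mul_sub, h2]; noncomm_ring
    rw [e, h.n2_neg]
    exact (hCy _).2
  · have hb : Tendsto (fun k => (σ E).re + n2 (sigmaL hπ) (R k - P)) atTop
        (𝓝 ((σ E).re + 0)) := tendsto_const_nhds.add hlim'
    rw [add_zero] at hb
    refine ge_of_tendsto' hb fun k => ?_
    have h2 : (sigmaL hπ (P - R k)).re ≤ n2 (sigmaL hπ) (R k - P) := by
      refine (Complex.re_le_norm _).trans ?_
      have := h.cauchy' (P - R k) 1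
      rwa [mul_one, n2_one h, mul_one, h.n2_sub_comm] at this
    rw [map_sub, Complex.sub_re] at h2
    have h3 : (sigmaL hπ (R k)).re ≤ (σ E).re := hr1 k
    linarith

end Pool.Agent.H316R3.NE
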